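import Mathlib

/-!
# MP_59918e_co, Q1: an equistable graph that is not weakly CIS

The graph has 14 vertices: it is the complement of the line graph of a triangle-free graph `F` with
9 vertices and 14 edges.
-/

set_option autoImplicit false

namespace Pool.Agent.Results.MP_59918e_co.NotWeaklyCIS

/-- `S` is a maximal stable set of `G`. -/
def IsMaxStable {V : Type} (G : SimpleGraph V) (S : Finset V) : Prop :=
  Maximal (fun s : Finset V => G.IsIndepSet (s : Set V)) S

/-- `C` is a maximal clique of `G`. -/
def IsMaxClique {V : Type} (G : SimpleGraph V) (C : Finset V) : Prop :=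
  Maximal (fun s : Finset V => G.IsClique (s : Set V)) C

/-- `G` is equistable: there are nonnegative real weights for which the maximal stable sets are
exactly the vertex sets of total weight `1`. -/
def Equistable {V : Type} (G : SimpleGraph V) : Prop :=
  ∃ φ : V → ℝ, (∀ v, 0 ≤ φ v) ∧ ∀ S : Finset V, IsMaxStable G S ↔ ∑ v ∈ S, φ v = 1

/-- `G` is weakly CIS: there are a family `C` of maximal cliques such that every two adjacent
vertices lie together in a member of `C`, and a family `S` of maximal stable sets such that every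
two distinct non-adjacent vertices lie together in a member of `S`, such that every member of `C`
meets every member of `S`. -/
def WeaklyCIS {V : Type} (G : SimpleGraph V) : Prop :=
  ∃ C S : Set (Finset V), (∀ c ∈ C, IsMaxClique G c) ∧ (∀ s ∈ S, IsMaxStable G s) ∧
    (∀ u v, G.Adj u v → ∃ c ∈ C, u ∈ c ∧ v ∈ c) ∧
    (∀ u v, u ≠ v → ¬ G.Adj u v → ∃ s ∈ S, u ∈ s ∧ v ∈ s) ∧
    ∀ c ∈ C, ∀ s ∈ S, ∃ x, x ∈ c ∧ x ∈ s

/-- first ends of the 14 edges of `F` -/
def ea : Fin 14 → Fin 9 := ![4, 5, 1, 0, 7, 1, 3, 0, 1, 4, 2, 2, 2, 0]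

/-- second ends of the 14 edges of `F` -/
def eb : Fin 14 → Fin 9 := ![8, 6, 3, 3, 8, 7, 4, 8, 6, 6, 7, 5, 3, 5]

/-- weights of the 14 edges of `F`; all stars have weight 158 -/
def w : Fin 14 → ℕ := ![58, 44, 52, 63, 35, 59, 33, 65, 47, 67, 64, 84, 10, 30]

/-- edges `i`, `j` of `F` are disjoint -/
def dis (i j : Fin 14) : Bool :=
  ea i != ea j && ea i != eb j && eb i != ea j && eb i != eb j

lemma dis_symm : ∀ i j, dis i j = dis j i := by decide

lemma dis_self : ∀ i, dis i i = false := by decide

/-- The complement of the line graph of `F`. -/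
def G : SimpleGraph (Fin 14) where
  Adj i j := dis i j = true
  symm := ⟨fun i j h => by rw [← dis_symm]; exact h⟩
  loopless := ⟨fun i h => by
    revert h; revert i; decide⟩

lemma G_adj (i j : Fin 14) : G.Adj i j ↔ dis i j = true := Iff.rfl

/-- the star of the vertex `x` of `F` -/
def star (x : Fin 9) : Finset (Fin 14) :=
  Finset.univ.filter fun i => ea i = x ∨ eb i = x

/-- the neighbours of `i` as a bit mask -/
def nb : Fin 14 → ℕ := ![15662, 5373, 11923, 3891, 15182, 15051, 11698, 8038, 15577, 15548, 9167,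
  1021, 9139, 6005]

lemma nb_spec : ∀ i j : Fin 14, (nb i).testBit j = dis i j := by decide +kernel

lemma nb_lt : ∀ i : Fin 14, nb i < 2 ^ 14 := by decide +kernel

/-- maximal stable sets, on masks -/
def maxB (m : ℕ) : Bool :=
  (List.finRange 14).all fun i =>
    bif m.testBit i then (m &&& nb i) == 0 else (m &&& nb i) != 0

/-- weight, on masks -/
def wB (m : ℕ) : ℕ :=
  (bif m.testBit 0 then 58 else 0) + (bif m.testBit 1 then 44 else 0) +
  (bif m.testBit 2 then 52 else 0) + (bif m.testBit 3 then 63 else 0) +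
  (bif m.testBit 4 then 35 else 0) + (bif m.testBit 5 then 59 else 0) +
  (bif m.testBit 6 then 33 else 0) + (bif m.testBit 7 then 65 else 0) +
  (bif m.testBit 8 then 47 else 0) + (bif m.testBit 9 then 67 else 0) +
  (bif m.testBit 10 then 64 else 0) + (bif m.testBit 11 then 84 else 0) +
  (bif m.testBit 12 then 10 else 0) + (bif m.testBit 13 then 30 else 0)

lemma chk : ((List.range 128).all fun a => (List.range 128).all fun b =>
    maxB (128 * a + b) == (wB (128 * a + b) == 158)) = true := by decide +kernel

lemma chk' (m : ℕ) (hm : m < 2 ^ 14) : maxB m = true ↔ wB m = 158 := by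
  have h := chk
  simp only [List.all_eq_true, List.mem_range, beq_iff_eq] at h
  have h1 := h (m / 128) (by omega) (m % 128) (by omega)
  rw [Nat.div_add_mod] at h1
  rw [h1, beq_iff_eq]

/-- the mask of a set -/
def mask (S : Finset (Fin 14)) : ℕ := Nat.ofBits fun i : Fin 14 => decide (i ∈ S)

lemma mask_lt (S : Finset (Fin 14)) : mask S < 2 ^ 14 := Nat.ofBits_lt_two_pow _

lemma mask_bit (S : Finset (Fin 14)) (i : Fin 14) : (mask S).testBit i = decide (i ∈ S) := by
  unfold mask
  rw [Nat.testBit_ofBits_lt _ _ i.2]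

lemma land_nb (S : Finset (Fin 14)) (i : Fin 14) :
    mask S &&& nb i = 0 ↔ ∀ j ∈ S, dis i j = false := by
  constructor
  · intro h j hj
    have h1 : (mask S &&& nb i).testBit j = false := by rw [h]; simp
    rw [Nat.testBit_and, mask_bit, nb_spec] at h1
    simpa [hj] using h1
  · intro h
    apply Nat.eq_of_testBit_eq
    intro k
    rw [Nat.testBit_and, Nat.zero_testBit]
    by_cases hk : k < 14
    · have h2 := mask_bit S ⟨k, hk⟩
      have h3 := nb_spec i ⟨k, hk⟩
      simp only at h2 h3
      rw [h2, h3]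
      by_cases hS : (⟨k, hk⟩ : Fin 14) ∈ S
      · simp [h _ hS]
      · simp [hS]
    · rw [Nat.testBit_lt_two_pow (x := mask S) (lt_of_lt_of_le (mask_lt S)
        (Nat.pow_le_pow_right (by norm_num) (by omega)))]
      simp

lemma maxB_iff (S : Finset (Fin 14)) : maxB (mask S) = true ↔ IsMaxStable G S := by
  have h1 : maxB (mask S) = true ↔
      ∀ i : Fin 14, (i ∈ S → ∀ j ∈ S, dis i j = false) ∧ (i ∉ S → ¬ ∀ j ∈ S, dis i j = false) := by
    unfold maxB
    simp only [List.all_eq_true, List.mem_finRange, forall_true_left, mask_bit]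
    apply forall_congr'
    intro i
    by_cases hi : i ∈ S
    · simp only [hi, decide_true, cond_true, beq_iff_eq, land_nb, forall_true_left, not_true,
        IsEmpty.forall_iff, and_true]
    · simp only [hi, decide_false, cond_false, bne_iff_ne, ne_eq, land_nb, IsEmpty.forall_iff,
        not_false_eq_true, forall_true_left, true_and]
  rw [h1]
  unfold IsMaxStable
  constructor
  · intro h
    refine ⟨?_, ?_⟩
    · intro i hi j hj _ hadj
      have := (h i).1 hi j hj
      rw [G_adj, this] at hadj
      exact Bool.false_ne_true hadj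
    · intro T hT hST i hi
      by_contra hiS
      apply (h i).2 hiS
      intro j hj
      by_cases hij : i = j
      · exact absurd (hij ▸ hj) hiS
      · have : ¬ G.Adj i j := hT hi (hST hj) hij
        rw [G_adj] at this
        simpa using this
  · rintro ⟨h2, h3⟩ i
    refine ⟨fun hi j hj => ?_, fun hi hall => ?_⟩
    · by_cases hij : i = j
      · subst hij
        exact dis_self i
      · have : ¬ G.Adj i j := h2 hi hj hij
        rw [G_adj] at this
        simpa using this
    · have h4 : (fun s : Finset (Fin 14) => G.IsIndepSet (s : Set (Fin 14))) (insert i S) := by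
        intro a ha b hb hab
        rw [G_adj]
        simp only [Finset.coe_insert, Set.mem_insert_iff, Finset.mem_coe] at ha hb
        rcases ha with rfl | ha <;> rcases hb with rfl | hb
        · exact absurd rfl hab
        · simp [hall b hb]
        · rw [dis_symm]; simp [hall a ha]
        · exact h2 ha hb hab
      exact hi (h3 h4 (Finset.subset_insert _ _) (Finset.mem_insert_self _ _))

lemma wB_eq (S : Finset (Fin 14)) : wB (mask S) = ∑ i ∈ S, w i := by
  have h1 : ∑ i ∈ S, w i = ∑ i : Fin 14, if i ∈ S then w i else 0 := by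
    rw [Finset.sum_ite_mem, Finset.univ_inter]
  have key : ∀ (k : ℕ) (hk : k < 14), (mask S).testBit k = decide ((⟨k, hk⟩ : Fin 14) ∈ S) :=
    fun k hk => mask_bit S ⟨k, hk⟩
  rw [h1]
  unfold wB
  rw [key 0 (by norm_num), key 1 (by norm_num), key 2 (by norm_num), key 3 (by norm_num),
    key 4 (by norm_num), key 5 (by norm_num), key 6 (by norm_num), key 7 (by norm_num),
    key 8 (by norm_num), key 9 (by norm_num), key 10 (by norm_num), key 11 (by norm_num),
    key 12 (by norm_num), key 13 (by norm_num)]
  simp only [Fin.sum_univ_succ, Finset.univ_eq_empty, Finset.sum_empty, Bool.cond_decide]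
  simp only [w, Fin.isValue, Matrix.cons_val_zero, Matrix.cons_val_succ, add_zero, add_assoc]
  rfl

lemma maxStable_iff (S : Finset (Fin 14)) : IsMaxStable G S ↔ ∑ i ∈ S, w i = 158 := by
  rw [← maxB_iff, chk' _ (mask_lt S), wB_eq]

lemma equi : ∃ φ : Fin 14 → ℝ, (∀ v, 0 < φ v) ∧
    ∀ S : Finset (Fin 14), IsMaxStable G S ↔ ∑ v ∈ S, φ v = 1 := by
  refine ⟨fun i => (w i : ℝ) / 158, ?_, ?_⟩
  · have : ∀ v, 0 < w v := by decide
    intro v
    have h := this v
    positivity
  · intro S
    rw [maxStable_iff, ← Finset.sum_div, div_eq_one_iff_eq (by norm_num)]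
    exact_mod_cast Iff.rfl

/-- any two distinct intersecting edges of `F` whose common vertex is `x` -/
lemma pick : ∀ x : Fin 9, ∃ i j : Fin 14, i ≠ j ∧ dis i j = false ∧
    (∀ k, (dis i k = false ∧ dis j k = false) → (ea k = x ∨ eb k = x)) := by
  decide +kernel

lemma notWeakly : ¬ WeaklyCIS G := by
  rintro ⟨C, S, hC, hS, hCe, hSe, hx⟩
  obtain ⟨c, hc, -, -⟩ := hCe 0 1 (by rw [G_adj]; decide)
  have hcl := (hC c hc).1
  -- every vertex of `F` is covered by `c`
  have hcov : ∀ x : Fin 9, ∃ i ∈ c, ea i = x ∨ eb i = x := by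
    intro x
    obtain ⟨i, j, hij, hd, hk⟩ := pick x
    obtain ⟨s, hs, his, hjs⟩ := hSe i j hij (by rw [G_adj, hd]; simp)
    obtain ⟨k, hkc, hks⟩ := hx c hc s hs
    refine ⟨k, hkc, hk k ?_⟩
    have hst := (hS s hs).1
    have aux : ∀ a ∈ s, dis a k = false := by
      intro a ha
      by_cases hak : a = k
      · rw [hak]; exact dis_self k
      · have : ¬ G.Adj a k := hst ha hks hak
        rw [G_adj] at this
        simpa using this
    exact ⟨aux i his, aux j hjs⟩
  -- count
  have hdisj : ∀ i ∈ c, ∀ j ∈ c, i ≠ j → dis i j = true := fun i hi j hj hij => hcl hi hj hij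
  have hcount : (9 : ℕ) = ∑ i ∈ c, 2 := by
    have h1 : ∀ x : Fin 9, (c.filter fun i => ea i = x ∨ eb i = x).card = 1 := by
      intro x
      rw [Finset.card_eq_one]
      obtain ⟨i, hi, hix⟩ := hcov x
      refine ⟨i, ?_⟩
      ext j
      simp only [Finset.mem_filter, Finset.mem_singleton]
      constructor
      · rintro ⟨hj, hjx⟩
        by_contra hji
        have := hdisj j hj i hi hji
        unfold dis at this
        simp only [Bool.and_eq_true, bne_iff_ne, ne_eq] at this
        rcases hix with h | h <;> rcases hjx with h' | h' <;> simp_all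
      · rintro rfl
        exact ⟨hi, hix⟩
    have h2 : ∀ i : Fin 14, (Finset.univ.filter fun x : Fin 9 => ea i = x ∨ eb i = x).card = 2 := by
      decide
    calc (9 : ℕ) = ∑ x : Fin 9, (c.filter fun i => ea i = x ∨ eb i = x).card := by
          rw [Finset.sum_congr rfl fun x _ => h1 x]; simp
      _ = ∑ i ∈ c, (Finset.univ.filter fun x : Fin 9 => ea i = x ∨ eb i = x).card := by
          simp_rw [Finset.card_filter]
          rw [Finset.sum_comm]
      _ = ∑ i ∈ c, 2 := Finset.sum_congr rfl fun i _ => h2 i
  rw [Finset.sum_const, smul_eq_mul] at hcount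
  omega

/-- There is a graph on 14 vertices which is equistable (even with positive weights) but not weakly
CIS. -/
theorem result : ∃ G : SimpleGraph (Fin 14),
    Equistable G ∧
    (∃ φ : Fin 14 → ℝ, (∀ v, 0 < φ v) ∧
      ∀ S : Finset (Fin 14), IsMaxStable G S ↔ ∑ v ∈ S, φ v = 1) ∧
    ¬ WeaklyCIS G := by
  refine ⟨G, ?_, equi, notWeakly⟩
  obtain ⟨φ, h1, h2⟩ := equi
  exact ⟨φ, fun v => (h1 v).le, h2⟩

end Pool.Agent.Results.MP_59918e_co.NotWeaklyCIS
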